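import Pool.Agent.LE.StmtsQX
import Pool.Agent.Helper76_LQD.RAL

/-!
# Squad LQX, row EGA: quasimodes on the torus
-/

set_option autoImplicit false

open MeasureTheory ProbabilityTheory Function Filter

open scoped ENNReal BigOperators Topology NNReal ComplexOrder Matrix

noncomputable section

namespace Pool.Agent.LE.QX.H91

open Pool.Agent.Anderson hiding box mem_box card_box
open Pool.Agent.Loc Pool.Agent.Mob Pool.Agent.Helper54.Bal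
  Pool.Agent.Helper96.EXP Pool.Agent.BED
open Pool.Agent.LE.MN Pool.Agent.LE.CL Pool.Agent.LE.IR Pool.Agent.LE.QD Pool.Agent.LE.QF

section gen

variable {X : Type} [Fintype X]

/-- a sum over a rectangle -/
theorem rect (C' : Finset X) (u : X → ℂ) (K : X → X → ℝ) :
    ∑ x ∈ C', ∑ y ∈ C', ‖u x‖ * ‖u y‖ * K x y ≤
      (∑ x ∈ C', ‖u x‖ ^ 2) * Real.sqrt (∑ x ∈ C', ∑ y ∈ C', K x y ^ 2) := by
  have h1 := Finset.sum_mul_sq_le_sq_mul_sq (C' ×ˢ C') (fun p : X × X => ‖u p.1‖ * ‖u p.2‖)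
    (fun p : X × X => K p.1 p.2)
  rw [Finset.sum_product, Finset.sum_product, Finset.sum_product] at h1
  simp only at h1
  have h2 : ∑ x ∈ C', ∑ y ∈ C', (‖u x‖ * ‖u y‖) ^ 2 = (∑ x ∈ C', ‖u x‖ ^ 2) ^ 2 := by
    rw [sq (∑ x ∈ C', ‖u x‖ ^ 2), Finset.sum_mul_sum]
    refine Finset.sum_congr rfl fun x _ => Finset.sum_congr rfl fun y _ => ?_
    ring
  rw [h2] at h1
  have h3 : 0 ≤ ∑ x ∈ C', ‖u x‖ ^ 2 := Finset.sum_nonneg fun _ _ => by positivity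
  refine (Real.le_sqrt_of_sq_le h1).trans ?_
  rw [Real.sqrt_mul (by positivity), Real.sqrt_sq h3]

theorem core (G : Matrix X X ℂ) (u w : X → ℂ) (C' : Finset X) {η B W : ℝ} (hη : 0 < η)
    (hG : ∀ a b, (η : ℂ) * ∑ c, G a c * (starRingEnd ℂ) (G b c) = ((G a b).im : ℂ))
    (hu : G *ᵥ w = u) (hB : ∑ x ∈ C', ∑ y ∈ C', ‖G x y‖ ^ 2 ≤ B) (hW : n2 w ≤ W) :
    η * ∑ x ∈ C', ‖u x‖ ^ 2 ≤ Real.sqrt B * W := by
  obtain ⟨A, hA⟩ : ∃ A, A = ∑ x ∈ C', ‖u x‖ ^ 2 := ⟨_, rfl⟩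
  have hA0 : 0 ≤ A := by
    rw [hA]
    exact Finset.sum_nonneg fun _ _ => by positivity
  obtain ⟨h, hh⟩ : ∃ h : X → ℂ, h = fun c => ∑ x ∈ C', (starRingEnd ℂ) (u x) * G x c := ⟨_, rfl⟩
  have h1 : (A : ℂ) = ∑ c, h c * w c := by
    have e1 : (A : ℂ) = ∑ x ∈ C', (starRingEnd ℂ) (u x) * ∑ c, G x c * w c := by
      rw [hA]
      push_cast
      refine Finset.sum_congr rfl fun x _ => ?_
      have e2 : ∑ c, G x c * w c = u x := congrFun hu x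
      rw [e2, Complex.conj_mul']
    rw [e1]
    simp only [Finset.mul_sum]
    rw [Finset.sum_comm]
    refine Finset.sum_congr rfl fun c _ => ?_
    rw [hh, Finset.sum_mul]
    refine Finset.sum_congr rfl fun x _ => ?_
    ring
  have h2 : A ≤ ∑ c, ‖h c‖ * ‖w c‖ := by
    have e1 : A = ‖(A : ℂ)‖ := by
      rw [Complex.norm_real, Real.norm_eq_abs, abs_of_nonneg hA0]
    rw [e1, h1]
    refine (norm_sum_le _ _).trans (le_of_eq ?_)
    refine Finset.sum_congr rfl fun c _ => ?_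
    rw [norm_mul]
  have h3 : A ^ 2 ≤ (∑ c, ‖h c‖ ^ 2) * n2 w :=
    (pow_le_pow_left₀ hA0 h2 2).trans (Finset.sum_mul_sq_le_sq_mul_sq _ _ _)
  have h4 : η * ∑ c, ‖h c‖ ^ 2 ≤ A * Real.sqrt B := by
    have e1 : ((η * ∑ c, ‖h c‖ ^ 2 : ℝ) : ℂ) =
        ∑ x ∈ C', ∑ y ∈ C', (starRingEnd ℂ) (u x) * u y * ((G x y).im : ℂ) := by
      have e2 : ∀ c, ((‖h c‖ : ℂ)) ^ 2 = ∑ x ∈ C', ∑ y ∈ C',
          (starRingEnd ℂ) (u x) * u y * (G x c * (starRingEnd ℂ) (G y c)) := by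
        intro c
        rw [← Complex.mul_conj', hh]
        simp only
        rw [map_sum, Finset.sum_mul_sum]
        refine Finset.sum_congr rfl fun x _ => Finset.sum_congr rfl fun y _ => ?_
        rw [map_mul, Complex.conj_conj]
        ring
      push_cast
      rw [Finset.sum_congr rfl fun c _ => e2 c, Finset.sum_comm, Finset.mul_sum]
      refine Finset.sum_congr rfl fun x _ => ?_
      rw [Finset.sum_comm, Finset.mul_sum]
      refine Finset.sum_congr rfl fun y _ => ?_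
      rw [← Finset.mul_sum, ← hG x y]
      ring
    have e3 : η * ∑ c, ‖h c‖ ^ 2 ≤ ‖((η * ∑ c, ‖h c‖ ^ 2 : ℝ) : ℂ)‖ := by
      rw [Complex.norm_real, Real.norm_eq_abs]
      exact le_abs_self _
    refine e3.trans ?_
    rw [e1]
    refine (norm_sum_le _ _).trans ((Finset.sum_le_sum fun x _ => norm_sum_le _ _).trans ?_)
    have e4 : ∀ x y, ‖(starRingEnd ℂ) (u x) * u y * ((G x y).im : ℂ)‖ ≤
        ‖u x‖ * ‖u y‖ * ‖G x y‖ := by
      intro x y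
      rw [norm_mul, norm_mul, RCLike.norm_conj, Complex.norm_real, Real.norm_eq_abs]
      exact mul_le_mul_of_nonneg_left (Complex.abs_im_le_norm _) (by positivity)
    refine (Finset.sum_le_sum fun x _ => Finset.sum_le_sum fun y _ => e4 x y).trans ?_
    refine (rect C' u fun x y => ‖G x y‖).trans ?_
    rw [← hA]
    exact mul_le_mul_of_nonneg_left (Real.sqrt_le_sqrt hB) hA0
  have hn : 0 ≤ n2 w := Finset.sum_nonneg fun _ _ => by positivity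
  have hs := Real.sqrt_nonneg B
  have hs2 : 0 ≤ ∑ c, ‖h c‖ ^ 2 := Finset.sum_nonneg fun _ _ => by positivity
  rw [← hA]
  rcases hA0.eq_or_lt with h0 | h0
  · rw [← h0, mul_zero]
    exact mul_nonneg hs (hn.trans hW)
  · refine le_of_mul_le_mul_left ?_ h0
    calc A * (η * A) = η * A ^ 2 := by ring
      _ ≤ η * ((∑ c, ‖h c‖ ^ 2) * n2 w) := mul_le_mul_of_nonneg_left h3 hη.le
      _ = (η * ∑ c, ‖h c‖ ^ 2) * n2 w := by ring
      _ ≤ (A * Real.sqrt B) * W := mul_le_mul h4 hW hn (mul_nonneg hA0 hs)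
      _ = A * (Real.sqrt B * W) := by ring

end gen

variable {d M : ℕ} [NeZero M]

theorem ward (V : Tor d M → ℝ) (E : ℝ) {η : ℝ} (hη : 0 < η) (a b : Tor d M) :
    (η : ℂ) * ∑ c, rs V ⟨E, η⟩ a c * (starRingEnd ℂ) (rs V ⟨E, η⟩ b c) =
      ((rs V ⟨E, η⟩ a b).im : ℂ) := by
  have h0 : (⟨E, η⟩ : ℂ).im ≠ 0 := hη.ne'
  have hc : ((starRingEnd ℂ) (⟨E, η⟩ : ℂ)).im ≠ 0 := by
    rw [Complex.conj_im]
    exact neg_ne_zero.2 h0
  have h1 := congrFun (congrFun (QD.H76.res_en V h0 hc) a) b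
  rw [QD.H76.rs_conj, Matrix.sub_apply, Matrix.smul_apply, Matrix.mul_apply,
    Matrix.conjTranspose_apply] at h1
  have h2 : ∑ c, rs V ⟨E, η⟩ a c * (rs V ⟨E, η⟩)ᴴ c b =
      ∑ c, rs V ⟨E, η⟩ a c * (starRingEnd ℂ) (rs V ⟨E, η⟩ b c) := rfl
  have h3 : (⟨E, η⟩ : ℂ) - (starRingEnd ℂ) (⟨E, η⟩ : ℂ) = 2 * Complex.I * (η : ℂ) := by
    rw [Complex.sub_conj]
    push_cast
    ring
  have h4 : rs V ⟨E, η⟩ a b - star (rs V ⟨E, η⟩ a b) =
      2 * Complex.I * ((rs V ⟨E, η⟩ a b).im : ℂ) := by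
    have h5 := Complex.sub_conj (rs V ⟨E, η⟩ a b)
    rw [show star (rs V ⟨E, η⟩ a b) = (starRingEnd ℂ) (rs V ⟨E, η⟩ a b) from rfl, h5]
    push_cast
    ring
  rw [h2, QD.H76.rs_symm V _ b a, h3, h4, smul_eq_mul, mul_assoc, mul_assoc, mul_assoc] at h1
  exact (mul_left_cancel₀ Complex.I_ne_zero (mul_left_cancel₀ (two_ne_zero' ℂ) h1)).symm

theorem shift (V : Tor d M → ℝ) (E η : ℝ) (u : Tor d M → ℂ) (x : Tor d M) :
    (hz V ⟨E, η⟩ *ᵥ u) x = (hz V (E : ℂ) *ᵥ u) x - Complex.I * η * u x := by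
  have hz' : (⟨E, η⟩ : ℂ) = (E : ℂ) + Complex.I * (η : ℂ) := by
    apply Complex.ext <;> simp
  rw [QD.H76.hz_eq, QD.H76.hz_eq, Matrix.sub_mulVec, Matrix.sub_mulVec, Pi.sub_apply, Pi.sub_apply,
    Matrix.mulVec_diagonal, Matrix.mulVec_diagonal, hz']
  ring

theorem n2_shift (V : Tor d M → ℝ) {E η S : ℝ} (u : Tor d M → ℂ) (hu : n2 u ≤ S)
    (hw : n2 (hz V (E : ℂ) *ᵥ u) ≤ η ^ 2 * S) : n2 (hz V ⟨E, η⟩ *ᵥ u) ≤ 4 * η ^ 2 * S := by
  have h1 : n2 (hz V ⟨E, η⟩ *ᵥ u) ≤ 2 * n2 (hz V (E : ℂ) *ᵥ u) + 2 * η ^ 2 * n2 u := by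
    unfold n2
    rw [Finset.mul_sum, Finset.mul_sum, ← Finset.sum_add_distrib]
    refine Finset.sum_le_sum fun x _ => ?_
    rw [shift]
    have h2 := norm_sub_le ((hz V (E : ℂ) *ᵥ u) x) (Complex.I * η * u x)
    have h3 : ‖Complex.I * η * u x‖ = |η| * ‖u x‖ := by
      rw [norm_mul, norm_mul, Complex.norm_I, one_mul, Complex.norm_real, Real.norm_eq_abs]
    rw [h3] at h2
    have h4 := pow_le_pow_left₀ (norm_nonneg _) h2 2
    refine h4.trans ?_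
    have h5 : η ^ 2 = |η| ^ 2 := (sq_abs η).symm
    rw [h5]
    nlinarith [sq_nonneg (‖(hz V (E : ℂ) *ᵥ u) x‖ - |η| * ‖u x‖)]
  nlinarith [sq_nonneg η, mul_le_mul_of_nonneg_left hu (sq_nonneg η)]

/-- row EGA -/
theorem ega : EgaStmt := by
  intro d M _ V E η B S C' u hη hB hu hw
  have h0 : (⟨E, η⟩ : ℂ).im ≠ 0 := hη.ne'
  have hG : rs V ⟨E, η⟩ *ᵥ (hz V ⟨E, η⟩ *ᵥ u) = u := by
    rw [Matrix.mulVec_mulVec, QD.H76.rs_mul V h0, Matrix.one_mulVec]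
  have h := core (rs V ⟨E, η⟩) u (hz V ⟨E, η⟩ *ᵥ u) C' hη (ward V E hη) hG hB
    (n2_shift V u hu hw)
  refine le_of_mul_le_mul_left (h.trans (le_of_eq ?_)) hη
  ring

end Pool.Agent.LE.QX.H91
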